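import Pool.Agent.H1.EpE

namespace Pool.Agent.Results.MP_04c77c_pr.NotConvex

/-- For every `n ≥ 3` the closure of the entropy power region `Γ(n) = ⋃_{d ≥ 1} Γ_d(n)` is not
convex: there are `v, w ∈ Γ(n)` (both realised in dimension `d = 1`) whose midpoint violates the
closed inequality `ν({i,j,k}) ν({k}) ≤ ν({i,k}) ν({j,k})`, valid on the closure of `Γ(n)`. -/
theorem result (n : ℕ) (hn : 3 ≤ n) : ¬ Convex ℝ (closure (EntPow.Gamma n)) :=
  EntPow.not_convex hn

end Pool.Agent.Results.MP_04c77c_pr.NotConvex
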